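import Pool.Agent.J6H84.DG.Stm

set_option autoImplicit false

/-! # DG-TWO: an automorphism with two fixed cells is trivial -/

namespace Pool.Agent.J6H46.DG.Two

open Finset Pool.Agent.H430R2.PermCubes Pool.Agent.J6H84.LM Pool.Agent.J6H84.TS Pool.Agent.J6H84.DG

theorem main : S_Two := by
  classical
  intro m n k C hm hn hk hbig hC σ hσ x y hx hy hxy
  choose τ hτ using hσ
  have hτ' : ∀ i z, C i (σ z) = τ i (C i z) := fun i z => hτ i z
  obtain ⟨F, hFd⟩ : ∃ F : Fin k → Finset (Fin n), F = fun i => univ.filter (fun s => τ i s = s) :=
    ⟨_, rfl⟩
  have hF : ∀ i s, s ∈ F i ↔ τ i s = s := fun i s => by rw [hFd]; simp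
  have hfix1 : ∀ z, σ z = z → ∀ i, C i z ∈ F i := by
    intro z hz i
    rw [hF, ← hτ', hz]
  have hfix2 : ∀ (M : Finset (Fin k)), m ≤ M.card → ∀ z, (∀ i ∈ M, C i z ∈ F i) → σ z = z := by
    intro M hM z hz
    refine hC.eq_of_agree M hM fun i hi => ?_
    rw [hτ']
    exact (hF i _).1 (hz i hi)
  -- all `F i` have the same size
  have hle : ∀ i j, i ≠ j → (F i).card ≤ (F j).card := by
    intro i j hij
    obtain ⟨M, hMs, hMc⟩ := Finset.exists_subset_card_eq
      (show m - 1 ≤ (((univ : Finset (Fin k)).erase i).erase j).card by
        rw [card_erase_of_mem (by simp [hij.symm]), card_erase_of_mem (mem_univ _), card_univ,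
          Fintype.card_fin]
        omega)
    have hiM : i ∉ M := fun h => by
      have := hMs h
      simp at this
    have hjM : j ∉ M := fun h => by
      have := hMs h
      simp at this
    have hMi : (insert i M).card = m := by rw [card_insert_of_notMem hiM, hMc]; omega
    have hMj : (insert j M).card = m := by rw [card_insert_of_notMem hjM, hMc]; omega
    have hex : ∀ s : Fin n, ∃ z, C i z = s ∧ ∀ l ∈ M, C l z = C l x := by
      intro s
      obtain ⟨z, hz⟩ := hC.exists_point (insert i M) hMi (fun l => if l = i then s else C l x)
      refine ⟨z, by have := hz i (mem_insert_self _ _); simpa using this, fun l hl => ?_⟩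
      have := hz l (mem_insert_of_mem hl)
      have hli : l ≠ i := fun h => hiM (h ▸ hl)
      simpa [hli] using this
    choose z hz1 hz2 using hex
    refine card_le_card_of_injOn (fun s => C j (z s)) ?_ ?_
    · intro s hs
      have hs' : s ∈ F i := hs
      have h1 : σ (z s) = z s := hfix2 (insert i M) hMi.ge (z s) (fun l hl => by
        rcases mem_insert.1 hl with rfl | hl
        · rw [hz1]; exact hs'
        · rw [hz2 s l hl]; exact hfix1 x hx l)
      exact hfix1 _ h1 j
    · intro s hs s' hs' hss
      have h1 : z s = z s' := hC.eq_of_agree (insert j M) hMj.ge (fun l hl => by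
        rcases mem_insert.1 hl with rfl | hl
        · exact hss
        · rw [hz2 s l hl, hz2 s' l hl])
      rw [← hz1 s, ← hz1 s', h1]
  have hk0 : 0 < k := by omega
  obtain ⟨a, ha⟩ : ∃ a : Fin k, a = ⟨0, hk0⟩ := ⟨_, rfl⟩
  obtain ⟨b, hb⟩ : ∃ b : Fin k, b = ⟨1, by omega⟩ := ⟨_, rfl⟩
  obtain ⟨c, hc⟩ : ∃ c : Fin k, c = ⟨2, by omega⟩ := ⟨_, rfl⟩
  have hab : a ≠ b := by rw [ha, hb]; simp
  have hac : a ≠ c := by rw [ha, hc]; simp
  have hbc : b ≠ c := by rw [hb, hc]; simp
  obtain ⟨f, hf⟩ : ∃ f, f = (F a).card := ⟨_, rfl⟩
  have hfe : ∀ i, (F i).card = f := by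
    intro i
    rw [hf]
    by_cases h : i = a
    · rw [h]
    · exact le_antisymm (hle i a h) (hle a i (Ne.symm h))
  have hf2 : 2 ≤ f := by
    have h1 : ∃ i, C i x ≠ C i y := by
      by_contra hcon
      push Not at hcon
      exact hxy (hC.eq_of_agree univ (by rw [card_univ, Fintype.card_fin]; omega) fun i _ => hcon i)
    obtain ⟨i, hi⟩ := h1
    rw [← hfe i]
    exact one_lt_card.2 ⟨C i x, hfix1 x hx i, C i y, hfix1 y hy i, hi⟩
  have hfn : f ≤ n := by
    rw [hf]
    exact (card_le_univ _).trans (by rw [Fintype.card_fin])
  rcases Nat.lt_or_ge f n with hlt | hge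
  · exfalso
    -- the array of the fixed cells
    have hkf : k ≤ f + m - 1 := by
      let φ : ∀ i, F i ≃ Fin f := fun i => (F i).equivFinOfCardEq (hfe i)
      have hbij : ∀ e : Fin m → Fin k, Function.Injective e →
          Function.Bijective (fun (z : {z : Fin m → Fin n // σ z = z}) (i : Fin m) =>
            φ (e i) ⟨C (e i) z.1, hfix1 z.1 z.2 (e i)⟩) := by
        intro e he
        constructor
        · intro z z' hzz
          apply Subtype.ext
          apply (hC e he).1
          funext i
          have h1 := congrFun hzz i
          have h2 := (φ (e i)).injective h1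
          exact congrArg Subtype.val h2
        · intro v
          obtain ⟨z, hz⟩ := (hC e he).2 (fun i => ((φ (e i)).symm (v i)).1)
          have hzi : ∀ i, C (e i) z = ((φ (e i)).symm (v i)).1 := fun i => congrFun hz i
          have hσz : σ z = z := by
            apply (hC e he).1
            funext i
            show C (e i) (σ z) = C (e i) z
            rw [hτ', hzi]
            exact (hF _ _).1 ((φ (e i)).symm (v i)).2
          refine ⟨⟨z, hσz⟩, ?_⟩
          funext i
          have h3 : (⟨C (e i) z, hfix1 z hσz (e i)⟩ : F (e i)) = (φ (e i)).symm (v i) :=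
            Subtype.ext (hzi i)
          show φ (e i) ⟨C (e i) z, hfix1 z hσz (e i)⟩ = v i
          rw [h3, Equiv.apply_symm_apply]
      let e0 : Fin m → Fin k := fun i => ⟨i.1, by omega⟩
      have he0 : Function.Injective e0 := fun i j hij => by
        have := congrArg Fin.val hij
        exact Fin.ext this
      let Φ : {z : Fin m → Fin n // σ z = z} ≃ (Fin m → Fin f) := Equiv.ofBijective _ (hbij e0 he0)
      let C' : Fin k → (Fin m → Fin f) → Fin f := fun i w =>
        φ i ⟨C i (Φ.symm w).1, hfix1 _ (Φ.symm w).2 i⟩
      have hC' : IsArray m f k C' := by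
        intro e he
        exact (hbij e he).comp Φ.symm.bijective
      exact hC'.le_general hm hf2
    -- few fixed symbols
    have h2f : 2 * f ≤ n := by
      obtain ⟨s, hs⟩ : ∃ s, s ∉ F a := by
        by_contra hcon
        push Not at hcon
        have h1 : F a = univ := eq_univ_iff_forall.2 hcon
        rw [← hfe a, h1, card_univ, Fintype.card_fin] at hlt
        omega
      obtain ⟨M, hMs, hMc⟩ := Finset.exists_subset_card_eq
        (show m - 2 ≤ ((((univ : Finset (Fin k)).erase a).erase b).erase c).card by
          rw [card_erase_of_mem (by simp [hac.symm, hbc.symm]), card_erase_of_mem (by simp [hab.symm]),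
            card_erase_of_mem (mem_univ _), card_univ, Fintype.card_fin]
          omega)
      have haM : a ∉ M := fun h => by
        have := hMs h
        simp at this
      have hbM : b ∉ M := fun h => by
        have := hMs h
        simp at this
      have hcM : c ∉ M := fun h => by
        have := hMs h
        simp at this
      have hMab : (insert a (insert b M)).card = m := by
        rw [card_insert_of_notMem (by simp [hab, haM]), card_insert_of_notMem hbM, hMc]; omega
      have hMbc : (insert b (insert c M)).card = m := by
        rw [card_insert_of_notMem (by simp [hbc, hbM]), card_insert_of_notMem hcM, hMc]; omega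
      have hMac : (insert a (insert c M)).card = m := by
        rw [card_insert_of_notMem (by simp [hac, haM]), card_insert_of_notMem hcM, hMc]; omega
      have hex : ∀ t : Fin n, ∃ z, C a z = s ∧ C b z = t ∧ ∀ l ∈ M, C l z = C l x := by
        intro t
        obtain ⟨z, hz⟩ := hC.exists_point (insert a (insert b M)) hMab
          (fun l => if l = a then s else if l = b then t else C l x)
        refine ⟨z, by have := hz a (by simp); simpa using this,
          by have := hz b (by simp); simpa [hab.symm] using this, fun l hl => ?_⟩
        have := hz l (by simp [hl])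
        have hla : l ≠ a := fun h => haM (h ▸ hl)
        have hlb : l ≠ b := fun h => hbM (h ▸ hl)
        simpa [hla, hlb] using this
      choose z hz1 hz2 hz3 using hex
      have hcard : (F b).card ≤ ((F c)ᶜ).card := by
        refine card_le_card_of_injOn (fun t => C c (z t)) ?_ ?_
        · intro t ht
          have ht' : t ∈ F b := ht
          show C c (z t) ∈ (((F c)ᶜ : Finset (Fin n)) : Set (Fin n))
          rw [mem_coe, mem_compl]
          intro hcon
          have h1 : σ (z t) = z t := hfix2 (insert b (insert c M)) hMbc.ge (z t) (fun l hl => by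
            rcases mem_insert.1 hl with rfl | hl
            · rw [hz2]; exact ht'
            · rcases mem_insert.1 hl with rfl | hl
              · exact hcon
              · rw [hz3 t l hl]; exact hfix1 x hx l)
          apply hs
          rw [← hz1 t]
          exact hfix1 _ h1 a
        · intro t ht t' ht' htt
          have h1 : z t = z t' := hC.eq_of_agree (insert a (insert c M)) hMac.ge (fun l hl => by
            rcases mem_insert.1 hl with rfl | hl
            · rw [hz1, hz1]
            · rcases mem_insert.1 hl with rfl | hl
              · exact htt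
              · rw [hz3 t l hl, hz3 t' l hl])
          rw [← hz2 t, ← hz2 t', h1]
      rw [card_compl, Fintype.card_fin, hfe, hfe] at hcard
      omega
    omega
  · -- all symbols are fixed
    have hall : ∀ i s, τ i s = s := by
      intro i s
      rw [← hF]
      have h1 : F i = univ := by
        rw [← card_eq_iff_eq_univ, hfe, Fintype.card_fin]
        omega
      rw [h1]
      exact mem_univ _
    ext1 z
    show σ z = z
    exact hC.eq_of_agree univ (by rw [card_univ, Fintype.card_fin]; omega) fun i _ => by
      rw [hτ', hall]

end Pool.Agent.J6H46.DG.Two
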